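import Mathlib

set_option autoImplicit false

open Finset

namespace Pool.Agent.Results.MP_0dba54_nt.ManyScales

/-- number of elements of `B` whose window `[b, b + w)` contains `t` -/
def cnt (B : Finset ℕ) (w t : ℕ) : ℕ := (B.filter (fun b => b ≤ t ∧ t < b + w)).card

lemma two_mul_sum (w : ℕ) : 2 * ∑ d ∈ Finset.Ico 1 w, (w - d) ≤ w ^ 2 := by
  have h1 : ∑ d ∈ Finset.Ico 1 w, (w - d) = ∑ d ∈ Finset.Ico 1 w, d := by
    apply Finset.sum_nbij' (fun d => w - d) (fun d => w - d)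
    · intro d hd; rw [Finset.mem_Ico] at hd ⊢; omega
    · intro d hd; rw [Finset.mem_Ico] at hd ⊢; omega
    · intro d hd; rw [Finset.mem_Ico] at hd; omega
    · intro d hd; rw [Finset.mem_Ico] at hd; omega
    · intro d hd; rfl
  have h2 : ∑ d ∈ Finset.Ico 1 w, d ≤ ∑ d ∈ Finset.range w, d := by
    apply Finset.sum_le_sum_of_subset
    intro d hd
    rw [Finset.mem_Ico] at hd
    rw [Finset.mem_range]; omega
  have h3 := Finset.sum_range_id_mul_two w
  have h4 : w * (w - 1) ≤ w ^ 2 := by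
    rw [sq]; exact Nat.mul_le_mul_left w (Nat.sub_le w 1)
  rw [h1]
  omega

lemma window_sum (B : Finset ℕ) (w T : ℕ)
    (hS : ∀ a ∈ B, ∀ b ∈ B, ∀ c ∈ B, ∀ d ∈ B, a < b → c < d → b - a = d - c → a = c ∧ b = d) :
    ∑ t ∈ Finset.range T, (cnt B w t) ^ 2 ≤ w ^ 2 + w * B.card := by
  classical
  set g : ℕ → ℕ → ℕ := fun b b' =>
    ((Finset.range T).filter (fun t => (b ≤ t ∧ t < b + w) ∧ (b' ≤ t ∧ t < b' + w))).card with hg
  have h1 : ∑ t ∈ Finset.range T, (cnt B w t) ^ 2 = ∑ b ∈ B, ∑ b' ∈ B, g b b' := by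
    have h2 : ∀ t, (cnt B w t) ^ 2 = ∑ b ∈ B, ∑ b' ∈ B,
        if (b ≤ t ∧ t < b + w) ∧ (b' ≤ t ∧ t < b' + w) then 1 else 0 := by
      intro t
      unfold cnt
      rw [sq, Finset.card_filter, Finset.sum_mul_sum]
      apply Finset.sum_congr rfl
      intro b _
      apply Finset.sum_congr rfl
      intro b' _
      by_cases h : (b ≤ t ∧ t < b + w) <;> by_cases h' : (b' ≤ t ∧ t < b' + w) <;> simp [h, h']
    simp only [h2]
    rw [Finset.sum_comm]
    apply Finset.sum_congr rfl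
    intro b _
    rw [Finset.sum_comm]
    apply Finset.sum_congr rfl
    intro b' _
    rw [hg]
    simp only [Finset.card_filter]
  have hsymm : ∀ b b', g b b' = g b' b := by
    intro b b'
    rw [hg]
    simp only
    congr 1
    ext t
    simp only [Finset.mem_filter]
    tauto
  have hdiag : ∀ b, g b b ≤ w := by
    intro b
    rw [hg]
    simp only
    calc _ ≤ (Finset.Ico b (b + w)).card := by
          apply Finset.card_le_card
          intro t ht
          rw [Finset.mem_filter] at ht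
          rw [Finset.mem_Ico]
          exact ht.2.1
      _ = w := by simp
  have hlt : ∀ b b', b < b' → g b b' ≤ w - (b' - b) := by
    intro b b' hbb
    rw [hg]
    simp only
    calc _ ≤ (Finset.Ico b' (b + w)).card := by
          apply Finset.card_le_card
          intro t ht
          rw [Finset.mem_filter] at ht
          rw [Finset.mem_Ico]
          exact ⟨ht.2.2.1, ht.2.1.2⟩
      _ = w - (b' - b) := by rw [Nat.card_Ico]; omega
  have hsplit : ∑ b ∈ B, ∑ b' ∈ B, g b b' = ∑ b ∈ B, g b b +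
      2 * ∑ p ∈ (B ×ˢ B).filter (fun p => p.1 < p.2), g p.1 p.2 := by
    rw [← Finset.sum_product']
    have h2 : ∑ p ∈ B ×ˢ B, g p.1 p.2 =
        ∑ p ∈ (B ×ˢ B).filter (fun p => p.1 = p.2), g p.1 p.2 +
        ∑ p ∈ (B ×ˢ B).filter (fun p => ¬ p.1 = p.2), g p.1 p.2 :=
      (Finset.sum_filter_add_sum_filter_not _ _ _).symm
    have h3 : ∑ p ∈ (B ×ˢ B).filter (fun p => ¬ p.1 = p.2), g p.1 p.2 =
        ∑ p ∈ (B ×ˢ B).filter (fun p => p.1 < p.2), g p.1 p.2 +
        ∑ p ∈ (B ×ˢ B).filter (fun p => p.2 < p.1), g p.1 p.2 := by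
      rw [← Finset.sum_union]
      · apply Finset.sum_congr _ (fun _ _ => rfl)
        ext p
        simp only [Finset.mem_filter, Finset.mem_union]
        constructor
        · rintro ⟨h, h'⟩
          rcases lt_or_gt_of_ne h' with h4 | h4
          · exact Or.inl ⟨h, h4⟩
          · exact Or.inr ⟨h, h4⟩
        · rintro (⟨h, h'⟩ | ⟨h, h'⟩)
          · exact ⟨h, h'.ne⟩
          · exact ⟨h, h'.ne'⟩
      · rw [Finset.disjoint_left]
        intro p hp hp'
        rw [Finset.mem_filter] at hp hp'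
        exact absurd hp.2 (not_lt.mpr hp'.2.le)
    have h4 : ∑ p ∈ (B ×ˢ B).filter (fun p => p.2 < p.1), g p.1 p.2 =
        ∑ p ∈ (B ×ˢ B).filter (fun p => p.1 < p.2), g p.1 p.2 := by
      apply Finset.sum_nbij' (fun p => (p.2, p.1)) (fun p => (p.2, p.1))
      · intro p hp; simp only [Finset.mem_filter, Finset.mem_product] at hp ⊢; tauto
      · intro p hp; simp only [Finset.mem_filter, Finset.mem_product] at hp ⊢; tauto
      · intro p _; rfl
      · intro p _; rfl
      · intro p _; exact hsymm _ _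
    have h5 : ∑ p ∈ (B ×ˢ B).filter (fun p => p.1 = p.2), g p.1 p.2 = ∑ b ∈ B, g b b := by
      symm
      apply Finset.sum_nbij' (fun b => (b, b)) (fun p => p.1)
      · intro b hb; simp only [Finset.mem_filter, Finset.mem_product]; exact ⟨⟨hb, hb⟩, trivial⟩
      · intro p hp; simp only [Finset.mem_filter, Finset.mem_product] at hp; exact hp.1.1
      · intro b _; rfl
      · intro p hp
        simp only [Finset.mem_filter, Finset.mem_product] at hp
        exact Prod.ext rfl hp.2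
      · intro b _; rfl
    rw [h2, h3, h4, h5]
    ring
  have hpairs : ∑ p ∈ (B ×ˢ B).filter (fun p => p.1 < p.2), g p.1 p.2 ≤
      ∑ d ∈ Finset.Ico 1 w, (w - d) := by
    set P := (B ×ˢ B).filter (fun p => p.1 < p.2) with hP
    have h2 : ∑ p ∈ P, g p.1 p.2 ≤ ∑ p ∈ P, (w - (p.2 - p.1)) :=
      Finset.sum_le_sum fun p hp => hlt _ _ (Finset.mem_filter.mp hp).2
    have h3 : ∑ p ∈ P, (w - (p.2 - p.1)) = ∑ d ∈ P.image (fun p => p.2 - p.1), (w - d) := by
      rw [Finset.sum_image]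
      intro p hp q hq hpq
      rw [Finset.mem_coe, hP, Finset.mem_filter, Finset.mem_product] at hp hq
      obtain ⟨h4, h5⟩ := hS p.1 hp.1.1 p.2 hp.1.2 q.1 hq.1.1 q.2 hq.1.2 hp.2 hq.2 hpq
      exact Prod.ext h4 h5
    have h4 : ∑ d ∈ P.image (fun p => p.2 - p.1), (w - d) ≤
        ∑ d ∈ (P.image (fun p => p.2 - p.1)) ∪ Finset.Ico 1 w, (w - d) :=
      Finset.sum_le_sum_of_subset Finset.subset_union_left
    have h5 : ∑ d ∈ (P.image (fun p => p.2 - p.1)) ∪ Finset.Ico 1 w, (w - d) =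
        ∑ d ∈ Finset.Ico 1 w, (w - d) := by
      symm
      apply Finset.sum_subset Finset.subset_union_right
      intro d hd hd'
      rw [Finset.mem_union, Finset.mem_image] at hd
      rcases hd with ⟨p, hp, rfl⟩ | hd
      · rw [hP, Finset.mem_filter] at hp
        rw [Finset.mem_Ico] at hd'
        have := hp.2
        omega
      · exact absurd hd hd'
    rw [h3] at h2
    rw [h5] at h4
    exact h2.trans h4
  have hd : ∑ b ∈ B, g b b ≤ w * B.card := by
    calc ∑ b ∈ B, g b b ≤ ∑ b ∈ B, w := Finset.sum_le_sum fun b _ => hdiag b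
      _ = w * B.card := by rw [Finset.sum_const, smul_eq_mul, mul_comm]
  have h6 := two_mul_sum w
  rw [h1, hsplit]
  omega

lemma sum_cnt (B : Finset ℕ) (w T : ℕ) (hT : ∀ b ∈ B, b + w ≤ T) :
    ∑ t ∈ Finset.range T, cnt B w t = w * B.card := by
  classical
  unfold cnt
  simp only [Finset.card_filter]
  rw [Finset.sum_comm]
  have h1 : ∀ b ∈ B, ∑ t ∈ Finset.range T, (if b ≤ t ∧ t < b + w then 1 else 0) = w := by
    intro b hb
    rw [← Finset.card_filter]
    have h2 : (Finset.range T).filter (fun t => b ≤ t ∧ t < b + w) = Finset.Ico b (b + w) := by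
      ext t
      rw [Finset.mem_filter, Finset.mem_range, Finset.mem_Ico]
      have := hT b hb
      constructor
      · exact fun h => h.2
      · intro h; exact ⟨by omega, h⟩
    rw [h2]
    simp
  rw [Finset.sum_congr rfl h1, Finset.sum_const, smul_eq_mul, mul_comm]

/-- Cauchy-Schwarz for one block. -/
lemma block (B : Finset ℕ) (w T T' : ℕ) (hT : ∀ b ∈ B, b + w ≤ T) (hTT : T ≤ T') :
    (w * B.card) ^ 2 ≤ T * ∑ t ∈ Finset.range T', (cnt B w t) ^ 2 := by
  have h1 := sum_cnt B w T hT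
  have h2 : (∑ t ∈ Finset.range T, cnt B w t) ^ 2 ≤
      (Finset.range T).card * ∑ t ∈ Finset.range T, (cnt B w t) ^ 2 := sq_sum_le_card_mul_sum_sq
  rw [h1, Finset.card_range] at h2
  refine h2.trans (Nat.mul_le_mul_left T ?_)
  apply Finset.sum_le_sum_of_subset
  exact Finset.range_subset_range.mpr hTT

lemma cnt_union (B C : Finset ℕ) (h : Disjoint B C) (w t : ℕ) :
    cnt (B ∪ C) w t = cnt B w t + cnt C w t := by
  unfold cnt
  rw [Finset.filter_union, Finset.card_union_of_disjoint]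
  exact Finset.disjoint_filter_filter h

lemma image_range_union (a : ℕ → ℕ) (ha : StrictMono a) {m k : ℕ} (h : m ≤ k) :
    (Finset.range k).image a = (Finset.range m).image a ∪ (Finset.Ico m k).image a ∧
      Disjoint ((Finset.range m).image a) ((Finset.Ico m k).image a) := by
  constructor
  · rw [← Finset.image_union]
    congr 1
    ext i
    rw [Finset.mem_union, Finset.mem_range, Finset.mem_range, Finset.mem_Ico]
    omega
  · rw [Finset.disjoint_left]
    intro x hx hx'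
    rw [Finset.mem_image] at hx hx'
    obtain ⟨i, hi, rfl⟩ := hx
    obtain ⟨j, hj, hij⟩ := hx'
    have := ha.injective hij
    rw [Finset.mem_range] at hi
    rw [Finset.mem_Ico] at hj
    omega

/-- Lower bound of the window sum by the blocks. -/
lemma scales (a : ℕ → ℕ) (ha : StrictMono a) (w : ℕ) (hw : 1 ≤ w) (n : ℕ → ℕ) (T : ℕ) :
    ∀ r : ℕ, (∀ j < r, n j < n (j + 1)) → a (n r) + w ≤ T →
    (w : ℝ) ^ 2 * (((n 0 : ℝ) + 1) ^ 2 / (a (n 0) + w) +
      ∑ j ∈ Finset.range r, ((n (j + 1) : ℝ) - n j) ^ 2 / (a (n (j + 1)) + w)) ≤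
    ∑ t ∈ Finset.range T, (cnt ((Finset.range (n r + 1)).image a) w t : ℝ) ^ 2 := by
  intro r
  have hwpos : (0 : ℝ) < w := by exact_mod_cast hw
  induction r with
  | zero =>
    intro _ hT
    have h1 := block ((Finset.range (n 0 + 1)).image a) w (a (n 0) + w) T (by
      intro b hb
      rw [Finset.mem_image] at hb
      obtain ⟨i, hi, rfl⟩ := hb
      rw [Finset.mem_range] at hi
      have := ha.monotone (by omega : i ≤ n 0)
      omega) hT
    rw [Finset.card_image_of_injective _ ha.injective, Finset.card_range] at h1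
    have h2 : ((w : ℝ) * ((n 0 : ℝ) + 1)) ^ 2 ≤ ((a (n 0) : ℝ) + w) *
        ∑ t ∈ Finset.range T, (cnt ((Finset.range (n 0 + 1)).image a) w t : ℝ) ^ 2 := by
      exact_mod_cast h1
    rw [Finset.sum_range_zero, add_zero, mul_div_assoc', ← mul_pow, div_le_iff₀ (by positivity)]
    linarith
  | succ r ih =>
    intro hn hT
    have hlt : n r < n (r + 1) := hn r (Nat.lt_succ_self r)
    have hle : a (n r) ≤ a (n (r + 1)) := ha.monotone hlt.le
    have ih' := ih (fun j hj => hn j (Nat.lt_succ_of_lt hj)) (by omega)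
    obtain ⟨hun, hdis⟩ := image_range_union a ha (by omega : n r + 1 ≤ n (r + 1) + 1)
    have h1 := block ((Finset.Ico (n r + 1) (n (r + 1) + 1)).image a) w (a (n (r + 1)) + w) T (by
      intro b hb
      rw [Finset.mem_image] at hb
      obtain ⟨i, hi, rfl⟩ := hb
      rw [Finset.mem_Ico] at hi
      have := ha.monotone (by omega : i ≤ n (r + 1))
      omega) hT
    rw [Finset.card_image_of_injective _ ha.injective, Nat.card_Ico] at h1
    have hcard : ((n (r + 1) + 1 - (n r + 1) : ℕ) : ℝ) = (n (r + 1) : ℝ) - n r := by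
      rw [Nat.cast_sub (by omega)]
      push_cast; ring
    have h2 : ((w : ℝ) * ((n (r + 1) : ℝ) - n r)) ^ 2 ≤ ((a (n (r + 1)) : ℝ) + w) *
        ∑ t ∈ Finset.range T,
          (cnt ((Finset.Ico (n r + 1) (n (r + 1) + 1)).image a) w t : ℝ) ^ 2 := by
      rw [← hcard]
      exact_mod_cast h1
    have h3 : (w : ℝ) ^ 2 * (((n (r + 1) : ℝ) - n r) ^ 2 / (a (n (r + 1)) + w)) ≤
        ∑ t ∈ Finset.range T,
          (cnt ((Finset.Ico (n r + 1) (n (r + 1) + 1)).image a) w t : ℝ) ^ 2 := by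
      rw [mul_div_assoc', ← mul_pow, div_le_iff₀ (by positivity)]
      linarith
    have h4 : ∀ t ∈ Finset.range T,
        (cnt ((Finset.range (n r + 1)).image a) w t : ℝ) ^ 2 +
          (cnt ((Finset.Ico (n r + 1) (n (r + 1) + 1)).image a) w t : ℝ) ^ 2 ≤
        (cnt ((Finset.range (n (r + 1) + 1)).image a) w t : ℝ) ^ 2 := by
      intro t _
      rw [hun, cnt_union _ _ hdis]
      push_cast
      have h5 : (0 : ℝ) ≤ cnt ((Finset.range (n r + 1)).image a) w t := Nat.cast_nonneg _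
      have h6 : (0 : ℝ) ≤ cnt ((Finset.Ico (n r + 1) (n (r + 1) + 1)).image a) w t :=
        Nat.cast_nonneg _
      nlinarith [mul_nonneg h5 h6]
    have h5 := Finset.sum_le_sum h4
    rw [Finset.sum_add_distrib] at h5
    rw [Finset.sum_range_succ, ← add_assoc, mul_add]
    linarith

/-- The finite inequality with explicit window length. -/
lemma explicit (a : ℕ → ℕ) (ha : StrictMono a)
    (hS : ∀ i j k l : ℕ, i ≤ j → k ≤ l → a i + a j = a k + a l → i = k ∧ j = l)
    (w : ℕ) (hw : 1 ≤ w) (n : ℕ → ℕ) (r : ℕ) (hn : ∀ j < r, n j < n (j + 1)) :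
    ((n 0 : ℝ) + 1) ^ 2 / (a (n 0) + w) +
      ∑ j ∈ Finset.range r, ((n (j + 1) : ℝ) - n j) ^ 2 / (a (n (j + 1)) + w) ≤
    1 + ((n r : ℝ) + 1) / w := by
  have hwpos : (0 : ℝ) < w := by exact_mod_cast hw
  have h1 := scales a ha w hw n (a (n r) + w) r hn le_rfl
  have h2 := window_sum ((Finset.range (n r + 1)).image a) w (a (n r) + w) (by
    intro b hb b' hb' c hc c' hc' hbb hcc hdiff
    rw [Finset.mem_image] at hb hb' hc hc'
    obtain ⟨i, _, rfl⟩ := hb
    obtain ⟨j, _, rfl⟩ := hb'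
    obtain ⟨k, _, rfl⟩ := hc
    obtain ⟨l, _, rfl⟩ := hc'
    have hij : i < j := ha.lt_iff_lt.mp hbb
    have hkl : k < l := ha.lt_iff_lt.mp hcc
    have hsum : a j + a k = a l + a i := by omega
    have key : ∀ p q u v : ℕ, a p + a q = a u + a v → (p = u ∧ q = v) ∨ (p = v ∧ q = u) := by
      intro p q u v h
      rcases le_total p q with hpq | hpq <;> rcases le_total u v with huv | huv
      · exact Or.inl (hS p q u v hpq huv h)
      · have := hS p q v u hpq huv (by omega); exact Or.inr this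
      · have := hS q p u v hpq huv (by omega); exact Or.inr ⟨this.2, this.1⟩
      · have := hS q p v u hpq huv (by omega); exact Or.inl ⟨this.2, this.1⟩
    rcases key j k l i hsum with ⟨h3, h4⟩ | ⟨h3, h4⟩
    · exact ⟨by rw [h4], by rw [h3]⟩
    · omega)
  rw [Finset.card_image_of_injective _ ha.injective, Finset.card_range] at h2
  have h3 : ∑ t ∈ Finset.range (a (n r) + w),
      (cnt ((Finset.range (n r + 1)).image a) w t : ℝ) ^ 2 ≤
      (w : ℝ) ^ 2 + w * ((n r : ℝ) + 1) := by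
    exact_mod_cast h2
  have h4 := h1.trans h3
  have h5 : (w : ℝ) ^ 2 + w * ((n r : ℝ) + 1) = (w : ℝ) ^ 2 * (1 + ((n r : ℝ) + 1) / w) := by
    field_simp
  rw [h5] at h4
  exact le_of_mul_le_mul_left h4 (by positivity)

/-- A crude upper bound for the number of elements. -/
lemma crude (a : ℕ → ℕ) (ha : StrictMono a) (ha0 : 1 ≤ a 0)
    (hS : ∀ i j k l : ℕ, i ≤ j → k ≤ l → a i + a j = a k + a l → i = k ∧ j = l) (m : ℕ) :
    ((m : ℝ) + 1) ^ 2 ≤ 9 * a m := by
  have hm : 1 ≤ a m := ha0.trans (ha.monotone (Nat.zero_le m))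
  have hm' : (1 : ℝ) ≤ a m := by exact_mod_cast hm
  have h := explicit a ha hS (a m) hm (fun _ => m) 0 (by intro j hj; omega)
  simp only [Finset.range_zero, Finset.sum_empty, add_zero] at h
  set M : ℝ := (a m : ℝ) with hM
  set x : ℝ := (m : ℝ) + 1 with hx
  have hx1 : 1 ≤ x := by rw [hx]; linarith [Nat.cast_nonneg (α := ℝ) m]
  have h1 : x ^ 2 ≤ 2 * M + 2 * x := by
    rw [div_le_iff₀ (by linarith)] at h
    have h2 : (1 + x / M) * (M + M) = 2 * M + 2 * x := by
      field_simp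
      ring
    rw [h2] at h
    exact h
  by_contra hcon
  push Not at hcon
  nlinarith

/-- Several scales. For every `ε > 0` there are `K` and `δ > 0` such that for every infinite
Sidon sequence `a` and all indices `n 0, ..., n r` whose terms increase by a factor at least `K`
from one to the next and with `a (n r) ≤ δ a (n 0) ^ 2`, the sum of the `(n j + 1) ^ 2 / a (n j)`
is at most `1 + ε`. -/
theorem result : ∀ ε : ℝ, 0 < ε → ∃ K δ : ℝ, 0 < K ∧ 0 < δ ∧
    ∀ a : ℕ → ℕ, StrictMono a → 1 ≤ a 0 →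
      (∀ i j k l : ℕ, i ≤ j → k ≤ l → a i + a j = a k + a l → i = k ∧ j = l) →
      ∀ (r : ℕ) (n : ℕ → ℕ), (∀ j < r, K * a (n j) ≤ a (n (j + 1))) →
        (a (n r) : ℝ) ≤ δ * (a (n 0) : ℝ) ^ 2 →
        ∑ j ∈ Finset.range (r + 1), ((n j : ℝ) + 1) ^ 2 / a (n j) ≤ 1 + ε := by
  intro ε₀ hε₀
  set ε : ℝ := min ε₀ 1 with hε
  have hεpos : 0 < ε := lt_min hε₀ one_pos
  have hε1 : ε ≤ 1 := min_le_right _ _
  have hεle : ε ≤ ε₀ := min_le_left _ _
  set κ : ℝ := 16 / ε with hκ
  have hκpos : 0 < κ := by positivity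
  have hκ16 : 16 ≤ κ := by
    rw [hκ, le_div_iff₀ hεpos]; linarith
  have hκinv : 1 / κ = ε / 16 := by rw [hκ]; field_simp
  set η : ℝ := ε / 16 with hη
  have hηpos : 0 < η := by positivity
  have hη1 : η ≤ 1 / 16 := by rw [hη]; linarith
  refine ⟨κ ^ 2, η ^ 4 / 9, by positivity, by positivity, ?_⟩
  intro a ha ha0 hS r n hn hr
  have hpos : ∀ m, (1 : ℝ) ≤ a m := fun m => by
    exact_mod_cast ha0.trans (ha.monotone (Nat.zero_le m))
  have hn' : ∀ j < r, n j < n (j + 1) := by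
    intro j hj
    have h1 := hn j hj
    have h2 := hpos (n j)
    have hκ2 : 2 ≤ κ ^ 2 := by nlinarith
    have h4 : 2 * (a (n j) : ℝ) ≤ κ ^ 2 * a (n j) :=
      mul_le_mul_of_nonneg_right hκ2 (by linarith)
    have h3 : (a (n j) : ℝ) < a (n (j + 1)) := by linarith
    exact ha.lt_iff_lt.mp (by exact_mod_cast h3)
  have hmono : ∀ j ≤ r, n 0 ≤ n j := by
    intro j
    induction j with
    | zero => intro _; exact le_rfl
    | succ j ih => intro hj; exact (ih (by omega)).trans (hn' j (by omega)).le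
  have hM : ∀ j ≤ r, (a (n 0) : ℝ) ≤ a (n j) := fun j hj => by
    exact_mod_cast ha.monotone (hmono j hj)
  set M₀ : ℝ := (a (n 0) : ℝ) with hM₀
  have hM₀1 : 1 ≤ M₀ := hpos _
  have hbig : 1 ≤ η * M₀ := by
    have h1 : M₀ ≤ η ^ 4 / 9 * M₀ ^ 2 := (hM r le_rfl).trans hr
    have h2 : 1 ≤ η ^ 4 / 9 * M₀ := by nlinarith
    have h3 : η ^ 4 / 9 ≤ η := by nlinarith [pow_pos hηpos 2, pow_pos hηpos 3]
    nlinarith
  set w : ℕ := ⌈η * M₀⌉₊ with hw
  have hw1 : η * M₀ ≤ w := Nat.le_ceil _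
  have hw2 : (w : ℝ) ≤ 2 * η * M₀ := by
    have := Nat.ceil_lt_add_one (by positivity : 0 ≤ η * M₀)
    linarith
  have hwpos : (0 : ℝ) < w := by linarith
  have hw3 : 1 ≤ w := by
    have : (0 : ℝ) < w := hwpos
    exact_mod_cast this
  have hexp := explicit a ha hS w hw3 n r hn'
  have hlast : ((n r : ℝ) + 1) / w ≤ η := by
    rw [div_le_iff₀ hwpos]
    have h1 := crude a ha ha0 hS (n r)
    have h2 : ((n r : ℝ) + 1) ^ 2 ≤ (η * (η * M₀)) ^ 2 := by
      calc ((n r : ℝ) + 1) ^ 2 ≤ 9 * a (n r) := h1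
        _ ≤ 9 * (η ^ 4 / 9 * M₀ ^ 2) := by linarith
        _ = (η * (η * M₀)) ^ 2 := by ring
    have h3 := abs_le_of_sq_le_sq h2 (by positivity)
    have h4 := (abs_le.mp (abs_le_of_sq_le_sq h2 (by positivity))).2
    nlinarith
  set x : ℕ → ℝ := fun j => (n j : ℝ) + 1 with hx
  have hterm : ∀ j ≤ r, ∀ y : ℝ, 0 ≤ y → y / a (n j) ≤ (1 + 2 * η) * (y / (a (n j) + w)) := by
    intro j hj y hy
    have h1 := hM j hj
    have h2 := hpos (n j)
    rw [mul_div_assoc', div_le_div_iff₀ (by linarith) (by linarith)]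
    have h3 : (a (n j) : ℝ) + w ≤ (1 + 2 * η) * a (n j) := by nlinarith
    calc y * ((a (n j) : ℝ) + w) ≤ y * ((1 + 2 * η) * a (n j)) := mul_le_mul_of_nonneg_left h3 hy
      _ = (1 + 2 * η) * y * a (n j) := by ring
  set D : ℝ := x 0 ^ 2 / a (n 0) +
    ∑ j ∈ Finset.range r, (x (j + 1) - x j) ^ 2 / a (n (j + 1)) with hD
  have hDle : D ≤ (1 + 2 * η) * (1 + η) := by
    have h1 : D ≤ (1 + 2 * η) * (x 0 ^ 2 / (a (n 0) + w) +
        ∑ j ∈ Finset.range r, (x (j + 1) - x j) ^ 2 / (a (n (j + 1)) + w)) := by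
      rw [hD, mul_add, Finset.mul_sum]
      apply add_le_add (hterm 0 (Nat.zero_le r) _ (sq_nonneg _))
      apply Finset.sum_le_sum
      intro j hj
      rw [Finset.mem_range] at hj
      exact hterm (j + 1) hj _ (sq_nonneg _)
    refine h1.trans (mul_le_mul_of_nonneg_left ?_ (by positivity))
    have h2 : x 0 ^ 2 / (a (n 0) + w) +
        ∑ j ∈ Finset.range r, (x (j + 1) - x j) ^ 2 / (a (n (j + 1)) + w) =
        ((n 0 : ℝ) + 1) ^ 2 / (a (n 0) + w) +
      ∑ j ∈ Finset.range r, ((n (j + 1) : ℝ) - n j) ^ 2 / (a (n (j + 1)) + w) := by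
      congr 1
      apply Finset.sum_congr rfl
      intro j _
      simp only [hx]
      congr 2
      ring
    rw [h2]
    linarith
  set S : ℝ := ∑ j ∈ Finset.range (r + 1), x j ^ 2 / a (n j) with hSdef
  have hSnn : ∀ j, 0 ≤ x j ^ 2 / (a (n j) : ℝ) := fun j =>
    div_nonneg (sq_nonneg _) (by linarith [hpos (n j)])
  have hS1 : S = x 0 ^ 2 / a (n 0) + ∑ j ∈ Finset.range r, x (j + 1) ^ 2 / a (n (j + 1)) := by
    rw [hSdef, Finset.sum_range_succ']
    ring
  have hS2 : S = ∑ j ∈ Finset.range r, x j ^ 2 / a (n j) + x r ^ 2 / a (n r) := by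
    rw [hSdef, Finset.sum_range_succ]
  have hstep : ∀ j ∈ Finset.range r, x (j + 1) ^ 2 / a (n (j + 1)) ≤
      (x (j + 1) - x j) ^ 2 / a (n (j + 1)) + η * (x (j + 1) ^ 2 / a (n (j + 1))) +
        η * (x j ^ 2 / a (n j)) := by
    intro j hj
    rw [Finset.mem_range] at hj
    have h1 := hn j hj
    have h2 := hpos (n j)
    have h3 := hpos (n (j + 1))
    have h4 : κ * x j ^ 2 / a (n (j + 1)) ≤ η * (x j ^ 2 / a (n j)) := by
      rw [← hκinv]
      rw [div_mul_div_comm, one_mul, div_le_div_iff₀ (by linarith) (by positivity)]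
      have h5 : κ * (κ * a (n j)) ≤ a (n (j + 1)) := by
        rw [← mul_assoc, ← sq]; exact h1
      calc κ * x j ^ 2 * (κ * a (n j)) = x j ^ 2 * (κ * (κ * a (n j))) := by ring
        _ ≤ x j ^ 2 * a (n (j + 1)) := mul_le_mul_of_nonneg_left h5 (sq_nonneg _)
    have h6 : x (j + 1) ^ 2 ≤ (x (j + 1) - x j) ^ 2 + η * x (j + 1) ^ 2 + κ * x j ^ 2 := by
      have h7 : η * κ = 1 := by rw [hη, hκ]; field_simp
      have h8 : 0 ≤ η * (x (j + 1) - κ * x j) ^ 2 := by positivity
      have h9 : η * (x (j + 1) - κ * x j) ^ 2 = η * x (j + 1) ^ 2 -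
          2 * (η * κ) * (x (j + 1) * x j) + (η * κ) * κ * x j ^ 2 := by ring
      rw [h9, h7] at h8
      nlinarith [sq_nonneg (x j)]
    calc x (j + 1) ^ 2 / a (n (j + 1)) ≤
        ((x (j + 1) - x j) ^ 2 + η * x (j + 1) ^ 2 + κ * x j ^ 2) / a (n (j + 1)) :=
          div_le_div_of_nonneg_right h6 (by linarith)
      _ = (x (j + 1) - x j) ^ 2 / a (n (j + 1)) + η * (x (j + 1) ^ 2 / a (n (j + 1))) +
        κ * x j ^ 2 / a (n (j + 1)) := by rw [add_div, add_div, mul_div_assoc]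
      _ ≤ _ := by linarith
  have hsum := Finset.sum_le_sum hstep
  rw [Finset.sum_add_distrib, Finset.sum_add_distrib, ← Finset.mul_sum, ← Finset.mul_sum] at hsum
  have hfin : S ≤ D + η * S + η * S := by
    have h1 : ∑ j ∈ Finset.range r, x (j + 1) ^ 2 / a (n (j + 1)) ≤ S := by
      rw [hS1]; linarith [hSnn 0]
    have h2 : ∑ j ∈ Finset.range r, x j ^ 2 / a (n j) ≤ S := by
      rw [hS2]; linarith [hSnn r]
    have h3 := mul_le_mul_of_nonneg_left h1 hηpos.le
    have h4 := mul_le_mul_of_nonneg_left h2 hηpos.le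
    rw [hD]
    conv_lhs => rw [hS1]
    linarith
  have hSfin : S ≤ 1 + ε := by
    have h1 : S * (1 - 2 * η) ≤ (1 + 2 * η) * (1 + η) := by linarith
    have h2 : (1 + 2 * η) * (1 + η) ≤ (1 + ε) * (1 - 2 * η) := by
      rw [hη]
      nlinarith
    have h3 : 0 < 1 - 2 * η := by linarith
    exact le_of_mul_le_mul_right (h1.trans h2) h3
  linarith

end Pool.Agent.Results.MP_0dba54_nt.ManyScales
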